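import Pool.Agent.H46.EXC.StmtsY
import Pool.Agent.H34.EXC.XCH

/-! # EXC YCH: choice of the known primes of one triple, one radical at most `Y` -/

set_option autoImplicit false

namespace Pool.EXC

open Finset Pool.Agent.H98.ABCR Pool.SHA Pool.ABY Pool.VIO

open H34XCH

theorem ych_thm (hRCT : S_RCT) : S_YCH := by
  intro ν cH l lm hν hν1 hcH hlm hl X Y h0 v hX hY hYX hh4 hv hR hSm hlo hup
  have hX0 : 0 < X := by linarith
  have hX1 : 1 ≤ X := by linarith
  have hh0 : 0 < h0 := by linarith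
  set r : Fin 3 → ℝ := fun s => (rad (coord v s) : ℝ) with hr
  have hr1 : ∀ s, 1 ≤ r s := fun s => by
    have := rad_pos1 (coord v s)
    simp only [hr]
    exact_mod_cast this
  have hrp : ∏ s, r s ≤ X := by
    rw [RR_eq1 v hv, Nat.cast_prod] at hR
    exact hR
  have hrX : ∀ s, r s ≤ X := by
    intro s
    obtain ⟨j, k, hij, hik, hjk⟩ := oth s
    rw [unv s j k hij hik hjk, prod_insert (by simp [hij, hik]), prod_pair hjk] at hrp
    have h1 : 1 ≤ r j * r k := one_le_mul_of_one_le_of_one_le (hr1 j) (hr1 k)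
    have h2 : r s * 1 ≤ r s * (r j * r k) := mul_le_mul_of_nonneg_left h1 (by linarith [hr1 s])
    linarith
  set S : Fin 3 → Finset ℕ := fun s => Sl X (ν / 2) v s with hS
  have hSsub : ∀ s, S s ⊆ (coord v s).primeFactors := fun s => filter_subset _ _
  have hSle : ∀ s, ∀ q ∈ S s, (q : ℝ) ≤ X ^ (ν / 2) := fun s q hq => (mem_filter.1 hq).2
  set w : Fin 3 → ℝ := fun s => kl (S s) (coord v s) with hw
  have hanti : Antitone lm := antitone_nat_of_succ_le fun n => (hlm n).2
  have hT : ∀ s, ∃ T ⊆ S s, ((∏ q ∈ T, q : ℕ) : ℝ) ≤ X ^ ν ∧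
      ν / 2 * w s ≤ kl T (coord v s) := fun s =>
    hRCT ν X (coord v s) (S s) hν hν1 hX (c_pos hv s) (hrX s) (hSsub s) (hSle s)
  choose T hTS hTX hTw using hT
  obtain ⟨m, hm4, hm⟩ := pig lm h0 hh0.le hlm w
  have hligle : ∀ K : Finset ℕ, ∀ i j k : Fin 3, i ≠ j → i ≠ k → j ≠ k →
      lig X (ν / 2) K i v ≤ w j + w k := by
    intro K i j k hij hik hjk
    refine (lig_le X (ν / 2) K v hij hik hjk).trans ?_
    exact add_le_add (kl_mono sdiff_subset _) (kl_mono sdiff_subset _)
  have hlm1 : 0 ≤ lm (m + 1) * h0 := mul_nonneg (hlm m).1.le hh0.le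
  have hwt : ∀ i, lm m * h0 ≤ w i → ∀ K, T i ⊆ K → ν / 2 * lm m * h0 ≤ kl K (coord v i) := by
    intro i hi K hK
    have h1 : ν / 2 * (lm m * h0) ≤ ν / 2 * w i := mul_le_mul_of_nonneg_left hi (by linarith)
    have h2 := hTw i
    have h3 := kl_mono hK (coord v i)
    linarith
  obtain ⟨σ, hσ⟩ := hSm
  have hσY : r σ ≤ Y := hσ
  -- alternative A
  have hA : ∀ i k : Fin 3, i ≠ σ → i ≠ k → σ ≠ k → lm m * h0 ≤ w i → r k ≤ r i →
      (∃ m < 4, ∃ (i : Fin 3), ∃ T ⊆ (coord v i).primeFactors,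
      ((∏ q ∈ T, q : ℕ) : ℝ) ≤ X ^ ν ∧ ν / 2 * lm m * h0 ≤ kl T (coord v i) ∧
      ∏ s ∈ univ.erase i, (rad (coord v s) : ℝ) ≤ Real.sqrt (X * Y)) := by
    intro i k hiσ hik hσk hi hki
    refine ⟨m, hm4, i, T i, (hTS i).trans (hSsub i), hTX i, hwt i hi _ (Subset.refl _), ?_⟩
    rw [er i σ k hiσ hik hσk, prod_pair hσk]
    apply Real.le_sqrt_of_sq_le
    have h1 : r i * (r σ * r k) ≤ X := by
      have h2 := hrp
      rw [unv i σ k hiσ hik hσk, prod_insert (by simp [hiσ, hik]), prod_pair hσk] at h2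
      exact h2
    have hσ0 : 0 ≤ r σ := by linarith [hr1 σ]
    have hk0 : 0 ≤ r k := by linarith [hr1 k]
    have h3 : r σ * (r k * r k) ≤ r i * (r σ * r k) := by
      have h4 : r k * (r σ * r k) ≤ r i * (r σ * r k) :=
        mul_le_mul_of_nonneg_right hki (mul_nonneg hσ0 hk0)
      linarith
    calc (r σ * r k) ^ 2 = (r σ * (r k * r k)) * r σ := by ring
      _ ≤ X * Y := mul_le_mul (h3.trans h1) hσY hσ0 hX0.le
  have hOne : ∀ i j k : Fin 3, i ≠ j → i ≠ k → j ≠ k → lm m * h0 ≤ w i →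
      w j < lm (m + 1) * h0 → w k < lm (m + 1) * h0 →
      (∃ m < 4, ∃ (i : Fin 3), ∃ K ⊆ (nn v).primeFactors,
      ((∏ q ∈ K, q : ℕ) : ℝ) ≤ Y * X ^ ν ∧ ν / 2 * lm m * h0 ≤ kl K (coord v i) ∧
      lig X (ν / 2) K i v ≤ 2 * lm (m + 1) * h0) := by
    intro i j k hij hik hjk hi hj hk
    refine ⟨m, hm4, i, T i, ((hTS i).trans (hSsub i)).trans (c_sub hv i), ?_,
      hwt i hi _ (Subset.refl _), ?_⟩
    · refine (hTX i).trans ?_
      exact le_mul_of_one_le_left (Real.rpow_nonneg hX0.le _) hY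
    · have := hligle (T i) i j k hij hik hjk
      linarith
  have hTwo : ∀ i k : Fin 3, i ≠ σ → i ≠ k → σ ≠ k → lm m * h0 ≤ w i →
      w k < lm (m + 1) * h0 →
      (∃ m < 4, ∃ (i : Fin 3), ∃ K ⊆ (nn v).primeFactors,
      ((∏ q ∈ K, q : ℕ) : ℝ) ≤ Y * X ^ ν ∧ ν / 2 * lm m * h0 ≤ kl K (coord v i) ∧
      lig X (ν / 2) K i v ≤ 2 * lm (m + 1) * h0) := by
    intro i k hiσ hik hσk hi hk
    refine ⟨m, hm4, i, T i ∪ S σ, union_subset (((hTS i).trans (hSsub i)).trans (c_sub hv i))
      ((hSsub σ).trans (c_sub hv σ)), ?_, hwt i hi _ subset_union_left, ?_⟩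
    · have h1 : ∏ q ∈ T i ∪ S σ, q ≤ (∏ q ∈ T i, q) * ∏ q ∈ S σ, q :=
        prod_union_le _ _ fun q hq =>
          (Nat.prime_of_mem_primeFactors (hSsub i (hTS i hq))).one_lt.le
      have h2 : ∏ q ∈ S σ, q ≤ rad (coord v σ) := Sl_prod X (ν / 2) v σ
      have h3 : ((∏ q ∈ T i ∪ S σ, q : ℕ) : ℝ) ≤ ((∏ q ∈ T i, q : ℕ) : ℝ) * r σ := by
        have := h1.trans (Nat.mul_le_mul_left _ h2)
        simp only [hr]
        exact_mod_cast this
      refine h3.trans ?_
      rw [mul_comm Y]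
      exact mul_le_mul (hTX i) hσY (by linarith [hr1 σ]) (Real.rpow_nonneg hX0.le _)
    · have h1 := lig_le X (ν / 2) (T i ∪ S σ) v hiσ hik hσk
      have h2 : Sl X (ν / 2) v σ \ (T i ∪ S σ) = ∅ :=
        sdiff_eq_empty_iff_subset.2 subset_union_right
      have h3 : kl (Sl X (ν / 2) v k \ (T i ∪ S σ)) (coord v k) ≤ w k :=
        kl_mono sdiff_subset _
      rw [h2] at h1
      have h4 : kl ∅ (coord v σ) = 0 := sum_empty
      linarith
  obtain ⟨j, k, hσj, hσk, hjk⟩ := oth σ
  rcases hm j with hj | hj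
  · rcases hm k with hk | hk
    · rcases hm σ with hs | hs
      · -- no heavy coordinate
        have hmm : lm m * h0 ≤ lm 0 * h0 :=
          mul_le_mul_of_nonneg_right (hanti (Nat.zero_le m)) hh0.le
        have hm1 : lm (m + 1) * h0 ≤ lm m * h0 := mul_le_mul_of_nonneg_right (hlm m).2 hh0.le
        by_cases hC : ∃ p ∈ (coord v σ).primeFactors,
            cH * h0 ≤ ((coord v σ).factorization p : ℝ) * Real.log p
        · right; right; left
          obtain ⟨p, hp, hpw⟩ := hC
          refine ⟨σ, p, hp, ?_, hpw, ?_⟩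
          · have h1 : p ≤ rad (coord v σ) := by
              refine Nat.le_of_dvd (rad_pos1 _) ?_
              unfold rad
              exact dvd_prod_of_mem (fun q => q) hp
            have h2 : (p : ℝ) ≤ r σ := by
              simp only [hr]
              exact_mod_cast h1
            exact h2.trans hσY
          · have h1 := hligle {p} σ j k hσj hσk hjk
            linarith
        · push Not at hC
          right; right; right
          have h3 := dec hν hX (mul_nonneg hcH.le hh0.le) (hrX σ)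
          have h4 : Hs X ν (cH * h0) (coord v σ) = ∅ := by
            rw [Hs, filter_eq_empty_iff]
            intro q hq h5
            exact absurd h5.2 (not_le.2 (hC q hq))
          have h5 : kl (Hs X ν (cH * h0) (coord v σ)) (coord v σ) = 0 := by
            rw [h4]; exact sum_empty
          have h6 : 2 / ν * (cH * h0) = 2 * cH / ν * h0 := by ring
          have h7 : kl ((coord v σ).primeFactors.filter (fun q : ℕ => (q : ℝ) ≤ X ^ (ν / 2)))
            (coord v σ) = w σ := rfl
          rw [h5, h7, h6] at h3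
          have h8 : (2 * cH / ν + lm 0) * h0 ≤ l * h0 := mul_le_mul_of_nonneg_right hl hh0.le
          have h9 : (2 * cH / ν + lm 0) * h0 = 2 * cH / ν * h0 + lm 0 * h0 := by ring
          refine ⟨σ, by linarith, ?_⟩
          have h1 := hligle ∅ σ j k hσj hσk hjk
          linarith
      · right; left
        exact hOne σ j k hσj hσk hjk hs hj hk
    · rcases hm σ with hs | hs
      · right; left
        exact hOne k σ j hσk.symm hjk.symm hσj hk hs hj
      · right; left
        exact hTwo k j hσk.symm hjk.symm hσj hk hj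
  · rcases hm k with hk | hk
    · rcases hm σ with hs | hs
      · right; left
        exact hOne j σ k hσj.symm hjk hσk hj hs hk
      · right; left
        exact hTwo j k hσj.symm hjk hσk hj hk
    · left
      rcases le_total (r k) (r j) with h | h
      · exact hA j k hσj.symm hjk hσk hj h
      · exact hA k j hσk.symm hjk.symm hσj hk h

end Pool.EXC
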