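import Pool.Agent.H46.EXC.StmtsY
import Pool.Agent.H40.EXC.XDY

/-!
# EXC, module YDY: one dyadic range of heights, one radical at most `Y`
-/

set_option autoImplicit false

namespace Pool.EXC

open Finset Pool.Agent.H98.ABCR Pool.SHA Pool.ABY Pool.VIO
open Pool.VIO.H22V (cnt split3 split4)

open XdyAux in
theorem ydy_thm (hXC : S_YCH) (hEN : S_ENX) (hLP : Pool.VIO.S_LPF) (hRL : S_RLP)
    (hAL : Pool.ABY.S_ALL) : S_YDY := by
  classical
  intro ε hε hε1
  obtain ⟨ν, hν⟩ : ∃ ν : ℝ, ν = ε / 8 := ⟨_, rfl⟩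
  have hν0 : 0 < ν := by rw [hν]; positivity
  have hν1 : ν ≤ 1 := by rw [hν]; linarith
  obtain ⟨lR, κR, XR, ε2, hlR, hκR, hXR, hε2, hR⟩ := hRL (ν / 2) (ε / 2) (by positivity)
    (by linarith) (by positivity) (by linarith)
  obtain ⟨cH, hcH⟩ : ∃ cH : ℝ, cH = ν / 16 := ⟨_, rfl⟩
  have hcH0 : 0 < cH := by rw [hcH]; positivity
  have hcH1 : cH ≤ 1 := by rw [hcH]; linarith
  obtain ⟨lH, κH, XH, hlH, hκH, hXH, hH⟩ := hLP cH (ν / 2) (ε / 4) hcH0 hcH1 (by positivity)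
    (by linarith) (by positivity)
  have hch : ∀ c : ℝ, ∃ lam κ0 X0 : ℝ, 0 < c → c ≤ 1 → 0 < lam ∧ 1 ≤ κ0 ∧ 3 ≤ X0 ∧
      ∀ (X h0 : ℝ) (K : Finset ℕ) (i : Fin 3) (F : Finset (ℕ × ℕ)), X0 ≤ X →
        κ0 * Real.log X ≤ h0 → (∀ v ∈ F, Fam X h0 c (ν / 2) lam K i v) →
        (F.card : ℝ) ≤ X ^ (ε / 4) := by
    intro c
    by_cases hc : 0 < c ∧ c ≤ 1
    · obtain ⟨lam, κ0, X0, h⟩ := hLP c (ν / 2) (ε / 4) hc.1 hc.2 (by positivity) (by linarith)
        (by positivity)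
      exact ⟨lam, κ0, X0, fun _ _ => h⟩
    · exact ⟨0, 0, 0, fun h1 h2 => absurd ⟨h1, h2⟩ hc⟩
  choose Lf κf Xf hLf using hch
  obtain ⟨lm, hlm0, hlmS⟩ : ∃ lm : ℕ → ℝ, lm 0 = min (1 / 8) (min (lH / 2) (lR / 2)) ∧
      ∀ m, lm (m + 1) = min (lm m) (Lf (ν / 2 * lm m) / 2) :=
    ⟨fun m => Nat.rec (min (1 / 8) (min (lH / 2) (lR / 2)))
      (fun _ r => min r (Lf (ν / 2 * r) / 2)) m, rfl, fun _ => rfl⟩
  have hcc : ∀ x : ℝ, 0 < x → x ≤ 1 / 8 → 0 < ν / 2 * x ∧ ν / 2 * x ≤ 1 := by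
    intro x h1 h2
    refine ⟨by positivity, ?_⟩
    have : ν / 2 * x ≤ 1 * 1 :=
      mul_le_mul (by linarith) (by linarith) h1.le (by norm_num)
    linarith
  have hlm : ∀ m, 0 < lm m ∧ lm m ≤ 1 / 8 := by
    intro m
    induction m with
    | zero =>
      rw [hlm0]
      exact ⟨lt_min (by positivity) (lt_min (by positivity) (by positivity)), min_le_left _ _⟩
    | succ m ih =>
      rw [hlmS]
      obtain ⟨c0, c1⟩ := hcc (lm m) ih.1 ih.2
      have h1 := (hLf _ c0 c1).1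
      exact ⟨lt_min ih.1 (by positivity), (min_le_left _ _).trans ih.2⟩
  have hlmH : lm 0 ≤ lH / 2 := by
    rw [hlm0]
    exact (min_le_right _ _).trans (min_le_left _ _)
  have hlmR : lm 0 ≤ lR / 2 := by
    rw [hlm0]
    exact (min_le_right _ _).trans (min_le_right _ _)
  have hc0 : ∀ m, 0 < ν / 2 * lm m := fun m => (hcc _ (hlm m).1 (hlm m).2).1
  have hc1 : ∀ m, ν / 2 * lm m ≤ 1 := fun m => (hcc _ (hlm m).1 (hlm m).2).2
  have hE := fun m => hEN (ν / 2 * lm m) (ε / 4) (hc0 m) (hc1 m) (by positivity) (by linarith)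
  choose κE XE hκE hXE hEE using hE
  have hLm := fun m => hLf (ν / 2 * lm m) (hc0 m) (hc1 m)
  obtain ⟨CA, hCA, hAll⟩ := hAL 1 one_pos
  obtain ⟨κ0, hκ0⟩ : ∃ κ0 : ℝ, κ0 = 4 + κR + κH +
      ∑ m ∈ range 4, (κf (ν / 2 * lm m) + κE m) := ⟨_, rfl⟩
  have hs1 : ∀ m ∈ range 4, 0 ≤ κf (ν / 2 * lm m) + κE m := by
    intro m _
    have h1 := (hLm m).2.1
    have h2 := hκE m
    linarith
  have hs2 : 0 ≤ ∑ m ∈ range 4, (κf (ν / 2 * lm m) + κE m) := Finset.sum_nonneg hs1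
  have k0 : 4 ≤ κ0 := by rw [hκ0]; linarith
  have k1 : κR ≤ κ0 := by rw [hκ0]; linarith
  have k2 : κH ≤ κ0 := by rw [hκ0]; linarith
  have k3 : ∀ m < 4, κf (ν / 2 * lm m) ≤ κ0 ∧ κE m ≤ κ0 := by
    intro m hm
    have h1 := Finset.single_le_sum hs1 (Finset.mem_range.2 hm)
    have h2 := (hLm m).2.1
    have h3 := hκE m
    rw [hκ0]
    constructor <;> linarith
  obtain ⟨X0, hX0⟩ : ∃ X0 : ℝ, X0 = 3 + XR + XH +
      ∑ m ∈ range 4, (Xf (ν / 2 * lm m) + XE m) := ⟨_, rfl⟩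
  have hs3 : ∀ m ∈ range 4, 0 ≤ Xf (ν / 2 * lm m) + XE m := by
    intro m _
    have h1 := (hLm m).2.2.1
    have h2 := hXE m
    linarith
  have hs4 : 0 ≤ ∑ m ∈ range 4, (Xf (ν / 2 * lm m) + XE m) := Finset.sum_nonneg hs3
  have x0 : 3 ≤ X0 := by rw [hX0]; linarith
  have x1 : XR ≤ X0 := by rw [hX0]; linarith
  have x2 : XH ≤ X0 := by rw [hX0]; linarith
  have x3 : ∀ m < 4, Xf (ν / 2 * lm m) ≤ X0 ∧ XE m ≤ X0 := by
    intro m hm
    have h1 := Finset.single_le_sum hs3 (Finset.mem_range.2 hm)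
    have h2 := (hLm m).2.2.1
    have h3 := hXE m
    rw [hX0]
    constructor <;> linarith
  refine ⟨κ0, CA * X0 ^ 2 + 30, ε2, by linarith, ?_, hε2, ?_⟩
  · have : 0 ≤ CA * X0 ^ 2 := by positivity
    linarith
  intro X Y h0 F hX hY hYX hκ hh0 hF
  have hXpos : 0 < X := by linarith
  have hYpos : 0 < Y := by linarith
  have hXY1 : 1 ≤ X * Y := one_le_mul_of_one_le_of_one_le hX hY
  obtain ⟨V, hV⟩ : ∃ V : ℝ, V = (X * Y) ^ (1 / 4 : ℝ) := ⟨_, rfl⟩
  have hV1 : 1 ≤ V := by rw [hV]; exact Real.one_le_rpow hXY1 (by norm_num)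
  have hYV : Y ≤ V := by
    have h1 : Y ^ (4 : ℕ) ≤ X * Y := by
      have h2 : Y ^ 3 * Y ≤ X * Y := mul_le_mul_of_nonneg_right hYX hYpos.le
      calc Y ^ (4 : ℕ) = Y ^ 3 * Y := by ring
        _ ≤ X * Y := h2
    have h3 : (Y ^ (4 : ℕ)) ^ (1 / 4 : ℝ) ≤ (X * Y) ^ (1 / 4 : ℝ) :=
      Real.rpow_le_rpow (by positivity) h1 (by norm_num)
    have h4 : (Y ^ (4 : ℕ)) ^ (1 / 4 : ℝ) = Y := by
      rw [← Real.rpow_natCast, ← Real.rpow_mul hYpos.le]
      norm_num
    rw [hV]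
    rwa [h4] at h3
  obtain ⟨W, hW⟩ : ∃ W : ℝ, W = X ^ ε * V := ⟨_, rfl⟩
  have hXε1 : 1 ≤ X ^ ε := Real.one_le_rpow hX hε.le
  have hW1 : 1 ≤ W := by rw [hW]; exact one_le_mul_of_one_le_of_one_le hXε1 hV1
  rw [mul_assoc, ← hV, ← hW]
  have hmono : ∀ α : ℝ, α ≤ ε → X ^ α * V ≤ W := by
    intro α h1
    rw [hW]
    exact mul_le_mul_of_nonneg_right (Real.rpow_le_rpow_of_exponent_le hX h1) (by linarith)
  have p0 : 0 ≤ CA * X0 ^ 2 * W := by positivity
  rcases lt_or_ge X X0 with hlt | hge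
  · -- bounded X
    have h1 := hAll X X F hX hX (by
      intro v hv
      obtain ⟨a1, a2, -, -⟩ := hF v hv
      refine ⟨a1, a2, 0, ?_⟩
      have h6 : (rad (coord v 0) : ℝ) ≤ RR v := by exact_mod_cast Pool.VIO.H22V.rad_coord_le a1 0
      exact h6.trans a2)
    rw [Real.rpow_one, Real.sqrt_mul_self hXpos.le] at h1
    have h2 : CA * X * X ≤ CA * X0 ^ 2 := by
      have h3 : X * X ≤ X0 ^ 2 := by rw [sq]; exact mul_self_le_mul_self hXpos.le hlt.le
      rw [mul_assoc]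
      exact mul_le_mul_of_nonneg_left h3 (by linarith)
    have h3 : CA * X0 ^ 2 ≤ CA * X0 ^ 2 * W :=
      le_mul_of_one_le_right (by positivity) hW1
    calc (F.card : ℝ) ≤ CA * X0 ^ 2 * W := h1.trans (h2.trans h3)
      _ ≤ CA * X0 ^ 2 * W + 30 * W := by linarith
      _ = (CA * X0 ^ 2 + 30) * W := by ring
  · -- large X
    have hX3 : 3 ≤ X := x0.trans hge
    have hlog0 : 0 ≤ Real.log X := Real.log_nonneg hX
    have hκh : 4 ≤ h0 := by
      have h1 : κ0 * 1 ≤ κ0 * (1 + Real.log X) :=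
        mul_le_mul_of_nonneg_left (by linarith) (by linarith)
      linarith
    have hlg : ∀ κ : ℝ, κ ≤ κ0 → κ * Real.log X ≤ h0 := by
      intro κ h1
      have h2 : κ * Real.log X ≤ κ0 * Real.log X := mul_le_mul_of_nonneg_right h1 hlog0
      have h3 : κ0 * Real.log X ≤ κ0 * (1 + Real.log X) :=
        mul_le_mul_of_nonneg_left (by linarith) (by linarith)
      linarith
    have hh0p : 0 < h0 := by linarith
    have hpf : ∀ (v : ℕ × ℕ) (K : Finset ℕ), K ⊆ (nn v).primeFactors → ∀ q ∈ K, q.Prime :=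
      fun v K h1 q hq => Nat.prime_of_mem_primeFactors (h1 hq)
    have hlmm : ∀ m, 0 < lm (m + 1) ∧ lm (m + 1) ≤ lm m := by
      intro m
      refine ⟨(hlm (m + 1)).1, ?_⟩
      rw [hlmS]
      exact min_le_left _ _
    have hlml : 2 * cH / ν + lm 0 ≤ 1 / 4 := by
      have h1 : 2 * cH / ν = 1 / 8 := by
        rw [hcH]
        field_simp
        norm_num
      have h2 := (hlm 0).2
      rw [h1]
      linarith
    -- the four options
    have hopt : ∀ v ∈ F,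
        (∃ m : Fin 4, ∃ T : Finset ℕ, (∀ q ∈ T, q.Prime) ∧ ((∏ q ∈ T, q : ℕ) : ℝ) ≤ X ^ ν ∧
          ∃ i : Fin 3, T ⊆ (coord v i).primeFactors ∧
            ν / 2 * lm m * h0 ≤ kl T (coord v i) ∧
            ∏ s ∈ univ.erase i, (rad (coord v s) : ℝ) ≤ Real.sqrt (X * Y)) ∨
        (∃ m : Fin 4, ∃ K : Finset ℕ, (∀ q ∈ K, q.Prime) ∧
          ((∏ q ∈ K, q : ℕ) : ℝ) ≤ Y * X ^ ν ∧
          ∃ i : Fin 3, Fam X h0 (ν / 2 * lm m) (ν / 2) (Lf (ν / 2 * lm m)) K i v) ∨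
        (∃ K : Finset ℕ, (∀ q ∈ K, q.Prime) ∧ ((∏ q ∈ K, q : ℕ) : ℝ) ≤ Y ∧
          ∃ i : Fin 3, Fam X h0 cH (ν / 2) lH K i v) ∨
        (∃ i : Fin 3, FamR X h0 (ν / 2) lR ∅ i v) := by
      intro v hv
      obtain ⟨a1, a2, a5, a3, a4⟩ := hF v hv
      rcases hXC ν cH (1 / 4) lm hν0 hν1 hcH0 hlmm hlml X Y h0 v hX3 hY hYX hκh a1 a2 a5 a3 a4 with
        ⟨m, hm, i, T, hT, b1, b2, b3⟩ | ⟨m, hm, i, K, hK, b1, b2, b3⟩ |
        ⟨i, p, hp, b1, b2, b3⟩ | ⟨i, b4, b5⟩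
      · exact Or.inl ⟨⟨m, hm⟩, T, hpf v T (hT.trans (pf_sub a1 i)), b1, i, hT, b2, b3⟩
      · refine Or.inr (Or.inl ⟨⟨m, hm⟩, K, hpf v K hK, b1, i, ⟨a1, a2, a3, a4, hK, b2, ?_⟩⟩)
        refine b3.trans ?_
        refine mul_le_mul_of_nonneg_right ?_ hh0p.le
        have h1 : lm (m + 1) ≤ Lf (ν / 2 * lm m) / 2 := by rw [hlmS]; exact min_le_right _ _
        show 2 * lm (m + 1) ≤ Lf (ν / 2 * lm m)
        linarith
      · have hpp : p.Prime := Nat.prime_of_mem_primeFactors hp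
        refine Or.inr (Or.inr (Or.inl ⟨{p}, ?_, ?_, i, ⟨a1, a2, a3, a4, ?_, ?_, ?_⟩⟩))
        · intro q hq
          rw [Finset.mem_singleton] at hq
          rw [hq]
          exact hpp
        · rw [Finset.prod_singleton]
          exact b1
        · rw [Finset.singleton_subset_iff]
          exact pf_sub a1 i hp
        · unfold kl
          rw [Finset.sum_singleton]
          exact b2
        · refine b3.trans ?_
          refine mul_le_mul_of_nonneg_right ?_ hh0p.le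
          linarith
      · refine Or.inr (Or.inr (Or.inr ⟨i, ⟨a1, a2, a3, a4, Finset.empty_subset _, ?_, ?_⟩⟩))
        · linarith
        · refine b5.trans ?_
          refine mul_le_mul_of_nonneg_right ?_ hh0p.le
          linarith
    obtain ⟨Z, hZ⟩ : ∃ Z : ℝ, Z = X ^ ν := ⟨_, rfl⟩
    have hZ0 : 0 ≤ Z := by rw [hZ]; positivity
    have hV0 : 0 ≤ V := by linarith
    have main := split4 F _ _ _ _ (12 * W) (12 * W) (3 * W) (3 * W) hopt ?_ ?_ ?_ ?_
    · calc (F.card : ℝ) ≤ 12 * W + 12 * W + 3 * W + 3 * W := main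
        _ = 30 * W := by ring
        _ ≤ CA * X0 ^ 2 * W + 30 * W := by linarith
        _ = (CA * X0 ^ 2 + 30) * W := by ring
    · -- option 1
      intro G hGF hG
      have hsq : Real.sqrt (Real.sqrt (X * Y)) = V := by
        rw [hV, Real.sqrt_eq_rpow, Real.sqrt_eq_rpow, ← Real.rpow_mul (by positivity)]
        norm_num
      have hsq1 : 1 ≤ Real.sqrt (X * Y) := by
        rw [Real.one_le_sqrt]
        exact hXY1
      have h1 := splitF (ι := Fin 4) (Z * (3 * (Z * X ^ (ε / 4) * V))) G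
        (fun m v => ∃ T : Finset ℕ, (∀ q ∈ T, q.Prime) ∧ ((∏ q ∈ T, q : ℕ) : ℝ) ≤ X ^ ν ∧
          ∃ i : Fin 3, T ⊆ (coord v i).primeFactors ∧
            ν / 2 * lm m * h0 ≤ kl T (coord v i) ∧
            ∏ s ∈ univ.erase i, (rad (coord v s) : ℝ) ≤ Real.sqrt (X * Y)) hG (by
          intro m G1 hG1 hP1
          refine cnt Z _ hZ0 (by positivity) G1
            (fun T v => ∃ i : Fin 3, T ⊆ (coord v i).primeFactors ∧
              ν / 2 * lm m * h0 ≤ kl T (coord v i) ∧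
              ∏ s ∈ univ.erase i, (rad (coord v s) : ℝ) ≤ Real.sqrt (X * Y))
            (by rw [hZ]; exact hP1) ?_
          intro T hTp hTZ G2 hG2 hP2
          refine split3 (Z * X ^ (ε / 4) * V) G2
            (fun i v => T ⊆ (coord v i).primeFactors ∧
              ν / 2 * lm m * h0 ≤ kl T (coord v i) ∧
              ∏ s ∈ univ.erase i, (rad (coord v s) : ℝ) ≤ Real.sqrt (X * Y)) hP2 ?_
          intro i G3 hG3 hP3
          have h2 := hEE m X h0 (Real.sqrt (X * Y)) T i G3 ((x3 m m.2).2.trans hge)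
            (hlg _ (k3 m m.2).2) hsq1 (by
              intro v hv
              obtain ⟨a1, a2, -, a3, a4⟩ := hF v (hGF (hG1 (hG2 (hG3 hv))))
              obtain ⟨b1, b2, b3⟩ := hP3 v hv
              exact ⟨a1, a2, a3, a4, b1, b2, b3⟩)
          rw [hsq] at h2
          refine h2.trans ?_
          refine mul_le_mul_of_nonneg_right ?_ hV0
          exact mul_le_mul_of_nonneg_right hTZ (by positivity))
      rw [Fintype.card_fin] at h1
      refine h1.trans ?_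
      calc ((4 : ℕ) : ℝ) * (Z * (3 * (Z * X ^ (ε / 4) * V)))
          = 12 * (((X ^ ν * X ^ ν) * X ^ (ε / 4)) * V) := by
            rw [hZ]; push_cast; ring
        _ ≤ 12 * W := by
            rw [← Real.rpow_add hXpos, ← Real.rpow_add hXpos]
            refine mul_le_mul_of_nonneg_left (hmono _ ?_) (by norm_num)
            rw [hν]
            linarith
    · -- option 2
      intro G hGF hG
      have h1 := splitF (ι := Fin 4) (Y * X ^ ν * (3 * X ^ (ε / 4))) G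
        (fun m v => ∃ K : Finset ℕ, (∀ q ∈ K, q.Prime) ∧
          ((∏ q ∈ K, q : ℕ) : ℝ) ≤ Y * X ^ ν ∧
          ∃ i : Fin 3, Fam X h0 (ν / 2 * lm m) (ν / 2) (Lf (ν / 2 * lm m)) K i v) hG (by
          intro m G1 hG1 hP1
          refine cnt (Y * X ^ ν) _ (by positivity) (by positivity) G1
            (fun K v => ∃ i : Fin 3,
              Fam X h0 (ν / 2 * lm m) (ν / 2) (Lf (ν / 2 * lm m)) K i v) hP1 ?_
          intro K hKp hKZ G2 hG2 hP2
          refine split3 (X ^ (ε / 4)) G2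
            (fun i v => Fam X h0 (ν / 2 * lm m) (ν / 2) (Lf (ν / 2 * lm m)) K i v) hP2 ?_
          intro i G3 hG3 hP3
          exact (hLm m).2.2.2 X h0 K i G3 ((x3 m m.2).1.trans hge) (hlg _ (k3 m m.2).1) hP3)
      rw [Fintype.card_fin] at h1
      refine h1.trans ?_
      calc ((4 : ℕ) : ℝ) * (Y * X ^ ν * (3 * X ^ (ε / 4)))
          = 12 * ((X ^ ν * X ^ (ε / 4)) * Y) := by push_cast; ring
        _ ≤ 12 * ((X ^ ν * X ^ (ε / 4)) * V) := by
            refine mul_le_mul_of_nonneg_left ?_ (by norm_num)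
            exact mul_le_mul_of_nonneg_left hYV (by positivity)
        _ ≤ 12 * W := by
            rw [← Real.rpow_add hXpos]
            refine mul_le_mul_of_nonneg_left (hmono _ ?_) (by norm_num)
            rw [hν]
            linarith
    · -- option 3
      intro G hGF hG
      have h1 := cnt Y (3 * X ^ (ε / 4)) (by positivity) (by positivity) G
        (fun K v => ∃ i : Fin 3, Fam X h0 cH (ν / 2) lH K i v) hG (by
          intro K hKp hKZ G2 hG2 hP2
          refine split3 (X ^ (ε / 4)) G2 (fun i v => Fam X h0 cH (ν / 2) lH K i v) hP2 ?_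
          intro i G3 hG3 hP3
          exact hH X h0 K i G3 (x2.trans hge) (hlg _ k2) hP3)
      refine h1.trans ?_
      calc Y * (3 * X ^ (ε / 4)) = 3 * (X ^ (ε / 4) * Y) := by ring
        _ ≤ 3 * (X ^ (ε / 4) * V) := by
            refine mul_le_mul_of_nonneg_left ?_ (by norm_num)
            exact mul_le_mul_of_nonneg_left hYV (by positivity)
        _ ≤ 3 * W := by
            refine mul_le_mul_of_nonneg_left (hmono _ ?_) (by norm_num)
            linarith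
    · -- option 4
      intro G hGF hG
      have h1 := split3 (X ^ (ε / 2)) G (fun i v => FamR X h0 (ν / 2) lR ∅ i v) hG (by
          intro i G1 hG1 hP1
          exact hR X h0 ∅ i G1 (x1.trans hge) (hlg _ k1) hh0 hP1)
      refine h1.trans ?_
      refine mul_le_mul_of_nonneg_left ?_ (by norm_num)
      refine le_trans ?_ (hmono (ε / 2) (by linarith))
      exact le_mul_of_one_le_right (by positivity) hV1

end Pool.EXC
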